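import Pool.Agent.helper1.VD.SpecA2

set_option autoImplicit false

open scoped ContDiff Topology InnerProductSpace ComplexConjugate ENNReal
open MeasureTheory Filter Set

namespace Pool.Agent.VD

open Pool.Agent.VQ (CH)

theorem AWLN_inner {d : ℕ} (x y : V d) : ∑ i, (((x i : ℝ)) : ℂ) * (((y i : ℝ)) : ℂ) = ((⟪x, y⟫_ℝ : ℝ) : ℂ) := by
  rw [PiLp.inner_apply]
  push_cast
  refine Finset.sum_congr rfl fun i _ => ?_
  have h : (⟪x i, y i⟫_ℝ : ℝ) = y i * x i := by simp
  rw [h]
  push_cast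
  ring

theorem AWLN_alg {d : ℕ} (A B C D Y0 P0 Y0' P0' A' B' C' D' : MC d) (h1 : A' * C = C' * A) (h2 : B' * D = D' * B)
    (h3 : A' * D - C' * B = 1) (h4 : B' * C - D' * A = -1) :
    (Y0' * A' + P0' * B') * (C * Y0 + D * P0) - (Y0' * C' + P0' * D') * (A * Y0 + B * P0) = Y0' * P0 - P0' * Y0 := by
  have e : (Y0' * A' + P0' * B') * (C * Y0 + D * P0) - (Y0' * C' + P0' * D') * (A * Y0 + B * P0) =
      Y0' * (A' * C - C' * A) * Y0 + Y0' * (A' * D - C' * B) * P0 + P0' * (B' * C - D' * A) * Y0 +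
        P0' * (B' * D - D' * B) * P0 := by
    noncomm_ring
  rw [e, h1, h2, h3, h4, sub_self, sub_self]
  noncomm_ring

theorem AWLN_proof : AWLN_stmt := by
  intro d T hT L Y0 P0 hL hLag
  have hent : ∀ (v : P d), ‖v‖ ≤ 1 → ∀ i, ‖(((((T v).1 i : ℝ)) : ℂ))‖ ≤ ‖T‖ ∧ ‖(((((T v).2 i : ℝ)) : ℂ))‖ ≤ ‖T‖ := by
    intro v hv i
    have h1 : ‖T v‖ ≤ ‖T‖ := (T.le_opNorm v).trans (by nlinarith [norm_nonneg T])
    rw [Complex.norm_real, Complex.norm_real]
    exact ⟨((PiLp.norm_apply_le (T v).1 i).trans (norm_fst_le _)).trans h1,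
      ((PiLp.norm_apply_le (T v).2 i).trans (norm_snd_le _)).trans h1⟩
  have hn1 : ∀ j : Fin d, ‖((EuclideanSpace.single j 1, 0) : P d)‖ ≤ 1 := by
    intro j
    rw [Prod.norm_def]
    simp
  have hn2 : ∀ j : Fin d, ‖((0, EuclideanSpace.single j 1) : P d)‖ ≤ 1 := by
    intro j
    rw [Prod.norm_def]
    simp
  have hconj : ∀ x : ℝ, (starRingEnd ℂ) (x : ℂ) = (x : ℂ) := fun x => Complex.conj_ofReal x
  have hAH : (WA T).conjTranspose = (WA T).transpose := by
    ext i j
    simp [WA, Matrix.conjTranspose_apply]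
  have hBH : (WB T).conjTranspose = (WB T).transpose := by
    ext i j
    simp [WB, Matrix.conjTranspose_apply]
  have hCH : (WC T).conjTranspose = (WC T).transpose := by
    ext i j
    simp [WC, Matrix.conjTranspose_apply]
  have hDH : (WD T).conjTranspose = (WD T).transpose := by
    ext i j
    simp [WD, Matrix.conjTranspose_apply]
  have hAC : ∀ j k, ((WA T).transpose * WC T) j k = ((⟪(T (EuclideanSpace.single j 1, 0)).1, (T (EuclideanSpace.single k 1, 0)).2⟫_ℝ : ℝ) : ℂ) := by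
    intro j k
    rw [Matrix.mul_apply, ← AWLN_inner]
    rfl
  have hCA : ∀ j k, ((WC T).transpose * WA T) j k = ((⟪(T (EuclideanSpace.single j 1, 0)).2, (T (EuclideanSpace.single k 1, 0)).1⟫_ℝ : ℝ) : ℂ) := by
    intro j k
    rw [Matrix.mul_apply, ← AWLN_inner]
    rfl
  have hBD : ∀ j k, ((WB T).transpose * WD T) j k = ((⟪(T (0, EuclideanSpace.single j 1)).1, (T (0, EuclideanSpace.single k 1)).2⟫_ℝ : ℝ) : ℂ) := by
    intro j k
    rw [Matrix.mul_apply, ← AWLN_inner]
    rfl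
  have hDB : ∀ j k, ((WD T).transpose * WB T) j k = ((⟪(T (0, EuclideanSpace.single j 1)).2, (T (0, EuclideanSpace.single k 1)).1⟫_ℝ : ℝ) : ℂ) := by
    intro j k
    rw [Matrix.mul_apply, ← AWLN_inner]
    rfl
  have hAD : ∀ j k, ((WA T).transpose * WD T) j k = ((⟪(T (EuclideanSpace.single j 1, 0)).1, (T (0, EuclideanSpace.single k 1)).2⟫_ℝ : ℝ) : ℂ) := by
    intro j k
    rw [Matrix.mul_apply, ← AWLN_inner]
    rfl
  have hCB : ∀ j k, ((WC T).transpose * WB T) j k = ((⟪(T (EuclideanSpace.single j 1, 0)).2, (T (0, EuclideanSpace.single k 1)).1⟫_ℝ : ℝ) : ℂ) := by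
    intro j k
    rw [Matrix.mul_apply, ← AWLN_inner]
    rfl
  have hδ : ∀ j k : Fin d, ⟪(EuclideanSpace.single j 1 : V d), (EuclideanSpace.single k 1 : V d)⟫_ℝ = if j = k then 1 else 0 := by
    intro j k
    simp [EuclideanSpace.inner_single_left]
  have r1 : (WA T).transpose * WC T = (WC T).transpose * WA T := by
    ext j k
    rw [hAC, hCA]
    have h1 := hT (EuclideanSpace.single k 1, 0) (EuclideanSpace.single j 1, 0)
    simp only [omg, inner_zero_left, sub_self] at h1
    rw [real_inner_comm]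
    congr 1
    linarith
  have r2 : (WB T).transpose * WD T = (WD T).transpose * WB T := by
    ext j k
    rw [hBD, hDB]
    have h1 := hT (0, EuclideanSpace.single k 1) (0, EuclideanSpace.single j 1)
    simp only [omg, inner_zero_right, sub_self] at h1
    rw [real_inner_comm]
    congr 1
    linarith
  have r3 : (WA T).transpose * WD T - (WC T).transpose * WB T = 1 := by
    ext j k
    rw [Matrix.sub_apply, hAD, hCB, Matrix.one_apply]
    have h1 := hT (0, EuclideanSpace.single k 1) (EuclideanSpace.single j 1, 0)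
    simp only [omg, inner_zero_left, sub_zero] at h1
    rw [hδ] at h1
    rw [real_inner_comm (T (0, EuclideanSpace.single k 1)).2]
    by_cases hjk : j = k
    · rw [if_pos hjk.symm] at h1
      rw [if_pos hjk]
      rw [← Complex.ofReal_sub, h1]
      simp
    · rw [if_neg (fun h => hjk h.symm)] at h1
      rw [if_neg hjk]
      rw [← Complex.ofReal_sub, h1]
      simp
  have r4 : (WB T).transpose * WC T - (WD T).transpose * WA T = -1 := by
    have h1 := congrArg Matrix.transpose r3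
    rw [Matrix.transpose_sub, Matrix.transpose_mul, Matrix.transpose_mul, Matrix.transpose_transpose,
      Matrix.transpose_transpose, Matrix.transpose_one] at h1
    rw [← h1]
    abel
  refine ⟨?_, ?_, ?_, ?_⟩
  · rw [← sub_eq_zero, Matrix.transpose_add, Matrix.transpose_mul, Matrix.transpose_mul, Matrix.transpose_add,
      Matrix.transpose_mul, Matrix.transpose_mul, AWLN_alg _ _ _ _ _ _ _ _ _ _ _ _ r1 r2 r3 r4, hLag.sym, sub_self]
  · rw [Matrix.conjTranspose_add, Matrix.conjTranspose_mul, Matrix.conjTranspose_mul, Matrix.conjTranspose_add,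
      Matrix.conjTranspose_mul, Matrix.conjTranspose_mul, hAH, hBH, hCH, hDH,
      AWLN_alg _ _ _ _ _ _ _ _ _ _ _ _ r1 r2 r3 r4, hLag.pos]
  · intro i k
    rw [Matrix.add_apply, Matrix.mul_apply, Matrix.mul_apply]
    have h1 : ∀ j ∈ (Finset.univ : Finset (Fin d)), ‖WA T i j * Y0 j k‖ ≤ ‖T‖ * L := by
      intro j _
      rw [norm_mul]
      exact mul_le_mul (hent _ (hn1 j) i).1 (hLag.bdY j k) (norm_nonneg _) (norm_nonneg _)
    have h2 : ∀ j ∈ (Finset.univ : Finset (Fin d)), ‖WB T i j * P0 j k‖ ≤ ‖T‖ * L := by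
      intro j _
      rw [norm_mul]
      exact mul_le_mul (hent _ (hn2 j) i).1 (hLag.bdP j k) (norm_nonneg _) (norm_nonneg _)
    have h3 := norm_sum_le_of_le _ h1
    have h4 := norm_sum_le_of_le _ h2
    rw [Finset.sum_const, Finset.card_univ, Fintype.card_fin, nsmul_eq_mul] at h3 h4
    refine (norm_add_le _ _).trans ((add_le_add h3 h4).trans ?_)
    have h5 : 0 ≤ ‖T‖ * L := mul_nonneg (norm_nonneg _) hL
    have h6 : (0 : ℝ) ≤ d := Nat.cast_nonneg d
    nlinarith [mul_nonneg h6 hL]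
  · intro i k
    rw [Matrix.add_apply, Matrix.mul_apply, Matrix.mul_apply]
    have h1 : ∀ j ∈ (Finset.univ : Finset (Fin d)), ‖WC T i j * Y0 j k‖ ≤ ‖T‖ * L := by
      intro j _
      rw [norm_mul]
      exact mul_le_mul (hent _ (hn1 j) i).2 (hLag.bdY j k) (norm_nonneg _) (norm_nonneg _)
    have h2 : ∀ j ∈ (Finset.univ : Finset (Fin d)), ‖WD T i j * P0 j k‖ ≤ ‖T‖ * L := by
      intro j _
      rw [norm_mul]
      exact mul_le_mul (hent _ (hn2 j) i).2 (hLag.bdP j k) (norm_nonneg _) (norm_nonneg _)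
    have h3 := norm_sum_le_of_le _ h1
    have h4 := norm_sum_le_of_le _ h2
    rw [Finset.sum_const, Finset.card_univ, Fintype.card_fin, nsmul_eq_mul] at h3 h4
    refine (norm_add_le _ _).trans ((add_le_add h3 h4).trans ?_)
    have h5 : 0 ≤ ‖T‖ * L := mul_nonneg (norm_nonneg _) hL
    have h6 : (0 : ℝ) ≤ d := Nat.cast_nonneg d
    nlinarith [mul_nonneg h6 hL]

end Pool.Agent.VD
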