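import Pool.Agent.helper1.VD.SpecA2

set_option autoImplicit false

open scoped ContDiff Topology InnerProductSpace ComplexConjugate ENNReal
open MeasureTheory Filter Set

namespace Pool.Agent.VD

open Pool.Agent.VQ (CH)

theorem AWPK_proof : AWPK_stmt := by
  intro d K R q hR
  have hRp : 0 < R := by linarith
  refine ⟨?_, ?_, ?_⟩
  · intro ζ1 η m A f hζ hm hA hout hin hf
    have h0 : ∀ v, R ^ (-(1 / 2) + ζ1) < ‖v‖ → A v = 0 := fun v hv => (hout v hv).eq_of_nhds
    refine ⟨A, hA, ?_, ?_, hf⟩
    · intro v hv
      have h1 : ‖v‖ ≤ R ^ (-(1 / 2) + ζ1) := by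
        by_contra hlt
        exact hv (h0 v (not_le.1 hlt))
      exact h1.trans (Real.rpow_le_rpow_of_exponent_le hR (by linarith))
    · intro k hk v
      by_cases hv : ‖v‖ ≤ R ^ (-(1 / 2) + ζ1)
      · exact hin v hv k hk
      · have h1 := ((hout v (not_le.1 hv)).iteratedFDeriv (𝕜 := ℝ) k).eq_of_nhds
        rw [h1]
        have h2 : iteratedFDeriv ℝ k (fun _ : V d => (0 : ℂ)) v = 0 := by simp
        rw [h2, norm_zero]
        positivity
  · intro η η' m m' f hη hm hmm hf
    obtain ⟨A, h1, h2, h3, h4⟩ := hf
    refine ⟨A, h1, ?_, ?_, h4⟩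
    · intro v hv
      exact (h2 v hv).trans (Real.rpow_le_rpow_of_exponent_le hR (by linarith))
    · intro k hk v
      refine (h3 k hk v).trans ?_
      have h5 : R ^ (1 / 2 + η) ≤ R ^ (1 / 2 + η') := Real.rpow_le_rpow_of_exponent_le hR (by linarith)
      have h6 : (R ^ (1 / 2 + η)) ^ k ≤ (R ^ (1 / 2 + η')) ^ k := pow_le_pow_left₀ (by positivity) h5 k
      exact mul_le_mul hmm h6 (by positivity) (by linarith)
  · intro η m m' f g hf hg
    obtain ⟨A, h1, h2, h3, h4⟩ := hf
    obtain ⟨A', h1', h2', h3', h4'⟩ := hg
    constructor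
    · refine ⟨fun v => A v + A' v, h1.add h1', ?_, ?_, ?_⟩
      · intro v hv
        by_cases h5 : A v = 0
        · apply h2' v
          intro h6
          apply hv
          show A v + A' v = 0
          rw [h5, h6, add_zero]
        · exact h2 v h5
      · intro k hk v
        have h5 : iteratedFDeriv ℝ k (fun v => A v + A' v) v = iteratedFDeriv ℝ k A v + iteratedFDeriv ℝ k A' v := by
          have := iteratedFDeriv_add_apply (𝕜 := ℝ) (i := k) (x := v)
            ((h1.of_le (by exact_mod_cast le_top)).contDiffAt) ((h1'.of_le (by exact_mod_cast le_top)).contDiffAt)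
          exact this
        rw [h5, add_mul]
        exact (norm_add_le _ _).trans (add_le_add (h3 k hk v) (h3' k hk v))
      · intro w
        show f w + g w = _
        rw [h4 w, h4' w]
        ring
    · refine ⟨fun v => -A v, h1.neg, ?_, ?_, ?_⟩
      · intro v hv
        apply h2 v
        intro h5
        apply hv
        show -A v = 0
        rw [h5, neg_zero]
      · intro k hk v
        have h5 : iteratedFDeriv ℝ k (fun v => -A v) v = -iteratedFDeriv ℝ k A v :=
          iteratedFDeriv_neg_apply
        rw [h5, norm_neg]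
        exact h3 k hk v
      · intro w
        show -f w = _
        rw [h4 w]
        ring

end Pool.Agent.VD
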