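import Pool.Agent.helper1.VD.SpecA2

set_option autoImplicit false

open scoped ContDiff Topology InnerProductSpace ComplexConjugate ENNReal
open MeasureTheory Filter Set

namespace Pool.Agent.VD

open Pool.Agent.VQ (CH)

/-- the bilinear form `∑ c_ij w_i w'_j` -/
noncomputable def AWQF_L {d : ℕ} (c : MC d) : V d →ₗ[ℝ] V d →ₗ[ℝ] ℂ :=
  LinearMap.mk₂ ℝ (fun w w' => ∑ i, ∑ j, c i j * ((w i * w' j : ℝ) : ℂ))
    (by
      intro w1 w2 w'
      simp only [PiLp.add_apply, add_mul, Complex.ofReal_add, mul_add, Finset.sum_add_distrib])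
    (by
      intro a w w'
      simp only [PiLp.smul_apply, smul_eq_mul, Finset.smul_sum, Complex.real_smul]
      refine Finset.sum_congr rfl fun i _ => Finset.sum_congr rfl fun j _ => ?_
      push_cast
      ring)
    (by
      intro w w1 w2
      simp only [PiLp.add_apply, mul_add, Complex.ofReal_add, Finset.sum_add_distrib])
    (by
      intro a w w'
      simp only [PiLp.smul_apply, smul_eq_mul, Finset.smul_sum, Complex.real_smul]
      refine Finset.sum_congr rfl fun i _ => Finset.sum_congr rfl fun j _ => ?_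
      push_cast
      ring)

theorem AWQF_Lb {d : ℕ} (c : MC d) (m : ℝ) (hc : ∀ i j, ‖c i j‖ ≤ m) (w w' : V d) :
    ‖AWQF_L c w w'‖ ≤ ((d : ℝ) ^ 2 * m) * ‖w‖ * ‖w'‖ := by
  have h1 : AWQF_L c w w' = ∑ i, ∑ j, c i j * ((w i * w' j : ℝ) : ℂ) := rfl
  rw [h1]
  have h2 : ∀ i ∈ (Finset.univ : Finset (Fin d)), ‖∑ j, c i j * ((w i * w' j : ℝ) : ℂ)‖ ≤ (d : ℝ) * (m * ‖w‖ * ‖w'‖) := by
    intro i _
    have h3 : ∀ j ∈ (Finset.univ : Finset (Fin d)), ‖c i j * ((w i * w' j : ℝ) : ℂ)‖ ≤ m * ‖w‖ * ‖w'‖ := by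
      intro j _
      have e1 := PiLp.norm_apply_le w i
      have e2 := PiLp.norm_apply_le w' j
      rw [norm_mul, Complex.norm_real, norm_mul, mul_assoc]
      exact mul_le_mul (hc i j) (mul_le_mul e1 e2 (norm_nonneg _) (norm_nonneg _)) (by positivity)
        ((norm_nonneg _).trans (hc i j))
    have h4 := norm_sum_le_of_le _ h3
    rwa [Finset.sum_const, Finset.card_univ, Fintype.card_fin, nsmul_eq_mul] at h4
  have h5 := norm_sum_le_of_le _ h2
  rw [Finset.sum_const, Finset.card_univ, Fintype.card_fin, nsmul_eq_mul] at h5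
  refine h5.trans (le_of_eq ?_)
  ring

/-- the continuous bilinear form -/
noncomputable def AWQF_B {d : ℕ} (c : MC d) (m : ℝ) (hc : ∀ i j, ‖c i j‖ ≤ m) : V d →L[ℝ] V d →L[ℝ] ℂ :=
  LinearMap.mkContinuous₂ (AWQF_L c) ((d : ℝ) ^ 2 * m) (AWQF_Lb c m hc)

theorem AWQF_lin {E F : Type} [NormedAddCommGroup E] [NormedSpace ℝ E] [NormedAddCommGroup F] [NormedSpace ℝ F]
    (Λ : E →L[ℝ] F) (x : E) : ‖iteratedFDeriv ℝ 0 Λ x‖ = ‖Λ x‖ ∧ ‖iteratedFDeriv ℝ 1 Λ x‖ = ‖Λ‖ ∧
      ∀ k, 2 ≤ k → ‖iteratedFDeriv ℝ k Λ x‖ = 0 := by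
  have h1 : fderiv ℝ Λ = fun _ => Λ := by
    funext y
    exact Λ.fderiv
  refine ⟨norm_iteratedFDeriv_zero, ?_, ?_⟩
  · rw [← norm_iteratedFDeriv_fderiv, h1, norm_iteratedFDeriv_zero]
  · intro k hk
    obtain ⟨n, rfl⟩ : ∃ n, k = n + 1 := ⟨k - 1, by omega⟩
    rw [← norm_iteratedFDeriv_fderiv, h1, iteratedFDeriv_const_of_ne (by omega)]
    simp

theorem AWQF_proof (hAWSY : AWSY_stmt) : AWQF_stmt := by
  intro d K
  obtain ⟨C0, hC0, -, hexp, -⟩ := hAWSY d K
  have hd : (0 : ℝ) ≤ (d : ℝ) := Nat.cast_nonneg d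
  refine ⟨C0 + (d : ℝ) ^ 2 + 1, by nlinarith, ?_⟩
  intro R m η M v hR hm hη hM hv
  have hRp : 0 < R := by linarith
  set c : MC d := Matrix.of fun i j => Complex.I * (R : ℂ) * (M i j / 2) with hc
  have hcb : ∀ i j, ‖c i j‖ ≤ R * m / 2 := by
    intro i j
    have h1 : c i j = Complex.I * (R : ℂ) * (M i j / 2) := rfl
    rw [h1, norm_mul, norm_mul, Complex.norm_I, one_mul, Complex.norm_real, norm_div, Real.norm_eq_abs,
      abs_of_pos hRp]
    have h2 : ‖(2 : ℂ)‖ = 2 := by simp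
    rw [h2]
    have := hM i j
    have h3 : R * (‖M i j‖ / 2) ≤ R * (m / 2) := mul_le_mul_of_nonneg_left (by linarith) hRp.le
    linarith
  set B := AWQF_B c (R * m / 2) hcb with hB
  have hBn : ‖B‖ ≤ (d : ℝ) ^ 2 * (R * m / 2) := LinearMap.mkContinuous₂_norm_le _ (by positivity) _
  have hBv : ∀ w w' : V d, B w w' = ∑ i, ∑ j, c i j * ((w i * w' j : ℝ) : ℂ) := fun w w' => rfl
  have hψ : ∀ w : V d, Complex.I * (R : ℂ) * (qf M w / 2) = B w w := by
    intro w
    rw [hBv, qf]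
    simp only [hc, Matrix.of_apply, Finset.sum_div, Finset.mul_sum]
    refine Finset.sum_congr rfl fun i _ => Finset.sum_congr rfl fun j _ => ?_
    ring
  have hψc : ContDiff ℝ ∞ (fun w : V d => B w w) := B.contDiff.clm_apply contDiff_id
  have hWE : (WE R M : V d → ℂ) = fun w => Complex.exp (B w w) := by
    funext w
    rw [WE, hψ]
  have hfd : fderiv ℝ (fun w : V d => B w w) = (B + B.flip : V d →L[ℝ] V d →L[ℝ] ℂ) := by
    funext w
    have h1 : HasFDerivAt (fun w : V d => B w w) (B.precompR (V d) w (ContinuousLinearMap.id ℝ (V d)) +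
        B.precompL (V d) (ContinuousLinearMap.id ℝ (V d)) w) w :=
      B.hasFDerivAt_of_bilinear (hasFDerivAt_id w) (hasFDerivAt_id w)
    rw [h1.fderiv]
    ext u
    simp
  have hΛn : ‖(B + B.flip : V d →L[ℝ] V d →L[ℝ] ℂ)‖ ≤ (d : ℝ) ^ 2 * (R * m) := by
    refine (norm_add_le B B.flip).trans ?_
    have hfl : ‖B.flip‖ = ‖B‖ := B.opNorm_flip
    rw [hfl]
    linarith
  set N := (C0 + (d : ℝ) ^ 2 + 1) * m * R ^ (1 / 2 + η) with hN
  have hRη : 1 ≤ R ^ (1 / 2 + η) := Real.one_le_rpow hR (by linarith)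
  have hN1 : 1 ≤ N := by
    have h1 : 1 ≤ (C0 + (d : ℝ) ^ 2 + 1) * m := by nlinarith [sq_nonneg (d : ℝ)]
    calc (1 : ℝ) = 1 * 1 := by ring
      _ ≤ N := mul_le_mul h1 hRη (by norm_num) (by linarith)
  have hder : ∀ k, 1 ≤ k → k ≤ K → ‖iteratedFDeriv ℝ k (fun w : V d => B w w) v‖ ≤ N ^ k := by
    intro k hk1 hkK
    obtain ⟨n, rfl⟩ : ∃ n, k = n + 1 := ⟨k - 1, by omega⟩
    rw [← norm_iteratedFDeriv_fderiv, hfd]
    obtain ⟨l0, l1, l2⟩ := AWQF_lin (B + B.flip : V d →L[ℝ] V d →L[ℝ] ℂ) v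
    rcases Nat.lt_or_ge n 2 with hn | hn
    · interval_cases n
      · rw [l0, zero_add, pow_one]
        refine ((B + B.flip : V d →L[ℝ] V d →L[ℝ] ℂ).le_opNorm v).trans ?_
        have h1 : ‖(B + B.flip : V d →L[ℝ] V d →L[ℝ] ℂ)‖ * ‖v‖ ≤ ((d : ℝ) ^ 2 * (R * m)) * R ^ (-(1 / 2) + η) :=
          mul_le_mul hΛn hv (norm_nonneg _) (by positivity)
        have h2 : R * R ^ (-(1 / 2) + η) = R ^ (1 / 2 + η) := by
          nth_rewrite 1 [← Real.rpow_one R]
          rw [← Real.rpow_add hRp]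
          congr 1
          ring
        have h3 : ((d : ℝ) ^ 2 * (R * m)) * R ^ (-(1 / 2) + η) = (d : ℝ) ^ 2 * (m * R ^ (1 / 2 + η)) := by
          rw [← h2]
          ring
        rw [h3] at h1
        refine h1.trans ?_
        have h4 : 0 ≤ m * R ^ (1 / 2 + η) := by positivity
        rw [hN, mul_assoc]
        exact mul_le_mul_of_nonneg_right (by linarith) h4
      · rw [l1]
        refine hΛn.trans ?_
        have h2 : R ≤ (R ^ (1 / 2 + η)) ^ 2 := by
          rw [← Real.rpow_natCast, ← Real.rpow_mul hRp.le]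
          nth_rewrite 1 [← Real.rpow_one R]
          apply Real.rpow_le_rpow_of_exponent_le hR
          push_cast
          linarith
        have h3 : (d : ℝ) ^ 2 * m ≤ ((C0 + (d : ℝ) ^ 2 + 1) * m) ^ 2 := by
          have h4 : (d : ℝ) ^ 2 ≤ (C0 + (d : ℝ) ^ 2 + 1) ^ 2 := by nlinarith [sq_nonneg (d : ℝ)]
          have h5 : m ≤ m ^ 2 := by nlinarith
          rw [mul_pow]
          exact mul_le_mul h4 h5 (by linarith) (by positivity)
        have h6 : N ^ (1 + 1) = ((C0 + (d : ℝ) ^ 2 + 1) * m) ^ 2 * (R ^ (1 / 2 + η)) ^ 2 := by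
          rw [hN]
          ring
        rw [h6]
        calc (d : ℝ) ^ 2 * (R * m) = ((d : ℝ) ^ 2 * m) * R := by ring
          _ ≤ _ := mul_le_mul h3 h2 hRp.le (by positivity)
    · rw [l2 n hn]
      positivity
  refine ⟨?_, ?_⟩
  · rw [hWE]
    exact Complex.contDiff_exp.comp hψc
  · have h1 := hexp N (fun w : V d => B w w) v hN1 hψc.contDiffAt hder
    rw [← hWE] at h1
    obtain ⟨h2, h3⟩ := h1
    refine ⟨h2, fun k hk => (h3 k hk).trans ?_⟩
    have h4 : ((B v) v).re = -(R / 2 * (qf M v).im) := by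
      rw [← hψ]
      simp [Complex.mul_re, Complex.mul_im]
      ring
    simp only [h4]
    apply mul_le_mul_of_nonneg_right _ (by positivity)
    apply mul_le_mul_of_nonneg_right _ (Real.exp_pos _).le
    nlinarith [sq_nonneg (d : ℝ)]

end Pool.Agent.VD
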