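import Pool.Agent.helper47.VD.SpecA1

set_option autoImplicit false

open scoped ContDiff Topology InnerProductSpace ComplexConjugate ENNReal
open MeasureTheory Filter Set

namespace Pool.Agent.VD

open Pool.Agent.VQ (CH)

theorem AFHB_proof (h1 : AMVI_stmt) : AFHB_stmt := by
  intro d Γ _ _ K k B G hK hG Λ F T hDm
  obtain ⟨-, -, -, -, hfin, -, -, -, -⟩ := h1 d Γ K k B G hK hG
  have hFm : MeasurableSet F := by
    rcases hDm with ⟨-, hF, -⟩ | ⟨-, hF, -⟩
    · exact hF.meas
    · rw [hF]
      exact MeasurableSet.univ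
  refine ⟨?_, ?_, ?_⟩
  · intro φ hφ
    obtain ⟨b, hb⟩ := hφ.supp
    have hbd : ∃ b : ℝ, ∀ z, ‖φ z‖ ≤ b := by
      rcases hDm with ⟨hΛ, hF, -⟩ | ⟨-, hF, -⟩
      · obtain ⟨b', hb'⟩ := hF.bdd
        obtain ⟨M, hM⟩ := (isCompact_closedBall (0 : V d) b').exists_bound_of_continuousOn hφ.cont.continuousOn
        refine ⟨M, fun z => ?_⟩
        obtain ⟨γ, hγ, -⟩ := hF.uniq z
        have h2 := hφ.inv γ (by rw [hΛ]; exact Subgroup.mem_top γ) z
        rw [← h2]
        exact hM _ (by simpa using hb' _ hγ)
      · obtain ⟨M, hM⟩ := (isCompact_closedBall (0 : V d) b).exists_bound_of_continuousOn hφ.cont.continuousOn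
        refine ⟨max M 0, fun z => ?_⟩
        by_cases hz : φ z = 0
        · rw [hz, norm_zero]
          exact le_max_right _ _
        · exact (hM z (by simpa using hb z (by rw [hF]; trivial) hz)).trans (le_max_left _ _)
    have hgen : ∀ (E : Type) [NormedAddCommGroup E] (g : V d → E), Continuous g → (∀ z, φ z = 0 → g z = 0) →
        IntegrableOn g F (mv G) := by
      intro E _ g hg h0
      have hball : IntegrableOn g (F ∩ Metric.closedBall (0 : V d) b) (mv G) := by
        have hfin' : mv G (Metric.closedBall (0 : V d) b) ≠ ⊤ := (hfin _ (isCompact_closedBall _ _)).ne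
        obtain ⟨M, hM⟩ := (isCompact_closedBall (0 : V d) b).exists_bound_of_continuousOn hg.continuousOn
        have h2 : IntegrableOn g (Metric.closedBall (0 : V d) b) (mv G) := by
          refine Measure.integrableOn_of_bounded (M := M) hfin' hg.aestronglyMeasurable ?_
          exact (ae_restrict_iff' Metric.isClosed_closedBall.measurableSet).2
            (Eventually.of_forall fun z hz => hM z hz)
        exact h2.mono_set inter_subset_right
      refine hball.of_forall_sdiff_eq_zero hFm ?_
      rintro z ⟨hz1, hz2⟩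
      apply h0
      by_contra hne
      exact hz2 ⟨hz1, by simpa using hb z hz1 hne⟩
    have hint1 := hgen ℂ φ hφ.cont (fun z h => h)
    have hint2 : IntegrableOn (fun z => ‖φ z‖ ^ 2) F (mv G) := by
      apply hgen ℝ (fun z => ‖φ z‖ ^ 2) (hφ.cont.norm.pow 2)
      intro z hz
      rw [hz, norm_zero]
      norm_num
    refine ⟨hbd, hint1, ?_, hint2, ?_, ?_⟩
    · rw [memLp_two_iff_integrable_sq_norm hφ.cont.aestronglyMeasurable]
      exact hint2
    · exact integral_nonneg fun z => by positivity
    · rw [nn, ofReal_integral_eq_lintegral_ofReal hint2 (Eventually.of_forall fun z => by positivity)]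
      refine lintegral_congr fun z => ?_
      rw [ENNReal.ofReal_pow (norm_nonneg _), ofReal_norm]
  · intro a b φ ψ hφ hψ
    refine ⟨(continuous_const.mul hφ.cont).add (continuous_const.mul hψ.cont), ?_, ?_⟩
    · intro γ hγ z
      show a * φ (γ • z) + b * ψ (γ • z) = _
      rw [hφ.inv γ hγ z, hψ.inv γ hγ z]
    · obtain ⟨b1, hb1⟩ := hφ.supp
      obtain ⟨b2, hb2⟩ := hψ.supp
      refine ⟨max b1 b2, fun z hz hne => ?_⟩
      by_cases h2 : φ z = 0
      · by_cases h3 : ψ z = 0
        · exfalso
          apply hne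
          show a * φ z + b * ψ z = 0
          rw [h2, h3, mul_zero, mul_zero, add_zero]
        · exact (hb2 z hz h3).trans (le_max_right _ _)
      · exact (hb1 z hz h2).trans (le_max_left _ _)
  · intro a b v v' hv hv'
    refine ⟨(measurable_const.mul hv.meas).add (measurable_const.mul hv'.meas), ?_, ?_, ?_⟩
    · obtain ⟨b1, hb1⟩ := hv.bdd
      obtain ⟨b2, hb2⟩ := hv'.bdd
      refine ⟨‖a‖ * b1 + ‖b‖ * b2, fun y => ?_⟩
      refine (norm_add_le _ _).trans ?_
      rw [norm_mul, norm_mul]
      exact add_le_add (mul_le_mul_of_nonneg_left (hb1 y) (norm_nonneg _))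
        (mul_le_mul_of_nonneg_left (hb2 y) (norm_nonneg _))
    · intro γ hγ y
      show a * v (γ • y) + b * v' (γ • y) = _
      rw [hv.inv γ hγ y, hv'.inv γ hγ y]
    · classical
      obtain ⟨S1, hS1⟩ := hv.supp
      obtain ⟨S2, hS2⟩ := hv'.supp
      refine ⟨S1 ∪ S2, fun y hy hne => ?_⟩
      by_cases h2 : v y = 0
      · by_cases h3 : v' y = 0
        · exfalso
          apply hne
          show a * v y + b * v' y = 0
          rw [h2, h3, mul_zero, mul_zero, add_zero]
        · exact Finset.mem_union_right _ (hS2 y hy h3)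
      · exact Finset.mem_union_left _ (hS1 y hy h2)

end Pool.Agent.VD
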