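import Pool.Agent.helper47.VD.SpecA1

set_option autoImplicit false

open scoped ContDiff Topology InnerProductSpace ComplexConjugate ENNReal
open MeasureTheory Filter Set

namespace Pool.Agent.VD

open Pool.Agent.VQ (CH)

/-- the index of the terms -/
abbrev AEGN_J (d : ℕ) : Type := Option (Option (Fin d ⊕ (Fin d × Fin d)))

/-- the functions -/
def AEGN_H {d : ℕ} (A A0 : V d → ℂ) (A1 : Fin d → V d → ℂ) (A2 : Fin d → Fin d → V d → ℂ) :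
    AEGN_J d → V d → ℂ
  | none => A
  | some none => A0
  | some (some (Sum.inl i)) => A1 i
  | some (some (Sum.inr p)) => A2 p.1 p.2

/-- the weights -/
noncomputable def AEGN_v (d : ℕ) (R : ℝ) : AEGN_J d → ℝ
  | none => R⁻¹ ^ 2
  | some none => R⁻¹ ^ 2
  | some (some (Sum.inl _)) => R⁻¹
  | some (some (Sum.inr _)) => 1

theorem AEGN_sum {d : ℕ} (f : AEGN_J d → ℝ) : ∑ j, f j = f none + f (some none) +
    (∑ i : Fin d, f (some (some (Sum.inl i)))) + ∑ i : Fin d, ∑ j : Fin d, f (some (some (Sum.inr (i, j)))) := by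
  rw [Fintype.sum_option, Fintype.sum_option, Fintype.sum_sum_type, Fintype.sum_prod_type]
  ring

theorem AEGN_card (d : ℕ) : ((Finset.univ : Finset (AEGN_J d)).card : ℝ) = 2 + d + d ^ 2 := by
  rw [Finset.card_univ, Fintype.card_option, Fintype.card_option, Fintype.card_sum, Fintype.card_prod,
    Fintype.card_fin]
  push_cast
  ring

theorem AEGN_proof (h1 : APLD_stmt) : AEGN_stmt := by
  intro d R θ W A A0 A1 A2 hR hθ hW hA hA0 hA1 hA2 hid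
  have hRp : 0 < R := by linarith
  have hv0 : ∀ j, 0 ≤ AEGN_v d R j := by
    intro j
    match j with
    | none => exact by simp only [AEGN_v]; positivity
    | some none => exact by simp only [AEGN_v]; positivity
    | some (some (Sum.inl _)) => exact by simp only [AEGN_v]; positivity
    | some (some (Sum.inr _)) => exact by simp only [AEGN_v]; positivity
  have hH : ∀ j, Continuous (AEGN_H A A0 A1 A2 j) ∧ HasCompactSupport (AEGN_H A A0 A1 A2 j) := by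
    intro j
    match j with
    | none => exact hA
    | some none => exact hA0
    | some (some (Sum.inl i)) => exact hA1 i
    | some (some (Sum.inr p)) => exact hA2 p.1 p.2
  have hP : ∀ j, Continuous (FTR R (AEGN_H A A0 A1 A2 j)) ∧ ∫⁻ ξ : V d, ‖FTR R (AEGN_H A A0 A1 A2 j) ξ‖ₑ ^ 2 =
      ENNReal.ofReal ((2 * Real.pi / R) ^ d * ∫ v : V d, ‖AEGN_H A A0 A1 A2 j v‖ ^ 2) := fun j =>
    h1 d R _ hRp ((hH j).1.integrable_of_hasCompactSupport (hH j).2) ((hH j).1.memLp_of_hasCompactSupport (hH j).2)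
  have hpt : ∀ ξ : V d, θ ξ ^ 2 / (1 + ‖ξ‖ ^ 2) ^ 2 * ‖FTR R W ξ‖ ^ 2 ≤
      ∑ j, (2 + d + d ^ 2 : ℝ) * AEGN_v d R j ^ 2 * ‖FTR R (AEGN_H A A0 A1 A2 j) ξ‖ ^ 2 := by
    intro ξ
    have ht : 0 < 1 + ‖ξ‖ ^ 2 := by positivity
    have hξ1 : ∀ i, |ξ i| ≤ 1 + ‖ξ‖ ^ 2 := by
      intro i
      have h2 : |ξ i| ≤ ‖ξ‖ := by
        have := PiLp.norm_apply_le ξ i
        rwa [Real.norm_eq_abs] at this
      nlinarith [sq_nonneg (‖ξ‖ - 1)]
    have hξ2 : ∀ i j, |ξ i * ξ j| ≤ 1 + ‖ξ‖ ^ 2 := by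
      intro i j
      have h2 : |ξ i| ≤ ‖ξ‖ := by
        have := PiLp.norm_apply_le ξ i
        rwa [Real.norm_eq_abs] at this
      have h3 : |ξ j| ≤ ‖ξ‖ := by
        have := PiLp.norm_apply_le ξ j
        rwa [Real.norm_eq_abs] at this
      rw [abs_mul]
      have := mul_le_mul h2 h3 (abs_nonneg _) (norm_nonneg _)
      nlinarith
    have hnorm : 2 * R ^ 2 * |θ ξ| * ‖FTR R W ξ‖ ≤ (1 + ‖ξ‖ ^ 2) * (‖FTR R A ξ‖ + ‖FTR R A0 ξ‖ +
        R * (∑ i, ‖FTR R (A1 i) ξ‖) + R ^ 2 * ∑ i, ∑ j, ‖FTR R (A2 i j) ξ‖) := by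
      have h2 := congrArg norm (hid ξ)
      rw [norm_mul, Complex.norm_real, Real.norm_eq_abs, abs_mul, abs_of_pos (show 0 < 2 * R ^ 2 by positivity)] at h2
      rw [h2]
      have h3 : ‖∑ i : Fin d, ((ξ i : ℝ) : ℂ) * FTR R (A1 i) ξ‖ ≤ (1 + ‖ξ‖ ^ 2) * ∑ i, ‖FTR R (A1 i) ξ‖ := by
        rw [Finset.mul_sum]
        refine (norm_sum_le _ _).trans (Finset.sum_le_sum fun i _ => ?_)
        rw [norm_mul, Complex.norm_real, Real.norm_eq_abs]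
        exact mul_le_mul_of_nonneg_right (hξ1 i) (norm_nonneg _)
      have h4 : ‖∑ i : Fin d, ∑ j : Fin d, ((ξ i * ξ j : ℝ) : ℂ) * FTR R (A2 i j) ξ‖ ≤
          (1 + ‖ξ‖ ^ 2) * ∑ i, ∑ j, ‖FTR R (A2 i j) ξ‖ := by
        rw [Finset.mul_sum]
        refine (norm_sum_le _ _).trans (Finset.sum_le_sum fun i _ => ?_)
        rw [Finset.mul_sum]
        refine (norm_sum_le _ _).trans (Finset.sum_le_sum fun j _ => ?_)
        rw [norm_mul, Complex.norm_real, Real.norm_eq_abs]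
        exact mul_le_mul_of_nonneg_right (hξ2 i j) (norm_nonneg _)
      have e1 : ‖FTR R A ξ‖ ≤ (1 + ‖ξ‖ ^ 2) * ‖FTR R A ξ‖ := by
        nlinarith [norm_nonneg (FTR R A ξ), mul_nonneg (sq_nonneg ‖ξ‖) (norm_nonneg (FTR R A ξ))]
      have e2 : ‖FTR R A0 ξ‖ ≤ (1 + ‖ξ‖ ^ 2) * ‖FTR R A0 ξ‖ := by
        nlinarith [norm_nonneg (FTR R A0 ξ), mul_nonneg (sq_nonneg ‖ξ‖) (norm_nonneg (FTR R A0 ξ))]
      have h5 := norm_add_le (FTR R A ξ + FTR R A0 ξ - Complex.I * (R : ℂ) * (∑ i : Fin d, ((ξ i : ℝ) : ℂ) * FTR R (A1 i) ξ))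
        (((R ^ 2 : ℝ) : ℂ) * ∑ i : Fin d, ∑ j : Fin d, ((ξ i * ξ j : ℝ) : ℂ) * FTR R (A2 i j) ξ)
      have h6 := norm_sub_le (FTR R A ξ + FTR R A0 ξ) (Complex.I * (R : ℂ) * (∑ i : Fin d, ((ξ i : ℝ) : ℂ) * FTR R (A1 i) ξ))
      have h7 := norm_add_le (FTR R A ξ) (FTR R A0 ξ)
      have h8 : ‖Complex.I * (R : ℂ) * (∑ i : Fin d, ((ξ i : ℝ) : ℂ) * FTR R (A1 i) ξ)‖ ≤
          R * ((1 + ‖ξ‖ ^ 2) * ∑ i, ‖FTR R (A1 i) ξ‖) := by
        rw [norm_mul, norm_mul, Complex.norm_I, one_mul, Complex.norm_real, Real.norm_eq_abs, abs_of_pos hRp]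
        exact mul_le_mul_of_nonneg_left h3 hRp.le
      have h9 : ‖((R ^ 2 : ℝ) : ℂ) * ∑ i : Fin d, ∑ j : Fin d, ((ξ i * ξ j : ℝ) : ℂ) * FTR R (A2 i j) ξ‖ ≤
          R ^ 2 * ((1 + ‖ξ‖ ^ 2) * ∑ i, ∑ j, ‖FTR R (A2 i j) ξ‖) := by
        rw [norm_mul, Complex.norm_real, Real.norm_eq_abs, abs_of_pos (show 0 < R ^ 2 by positivity)]
        exact mul_le_mul_of_nonneg_left h4 (by positivity)
      nlinarith
    set S := ∑ j, AEGN_v d R j * ‖FTR R (AEGN_H A A0 A1 A2 j) ξ‖ with hS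
    have hSval : R ^ 2 * S = ‖FTR R A ξ‖ + ‖FTR R A0 ξ‖ + R * (∑ i, ‖FTR R (A1 i) ξ‖) +
        R ^ 2 * ∑ i, ∑ j, ‖FTR R (A2 i j) ξ‖ := by
      rw [hS, AEGN_sum]
      simp only [AEGN_v, AEGN_H, ← Finset.mul_sum, one_mul]
      field_simp
    have hS0 : 0 ≤ S := Finset.sum_nonneg fun j _ => mul_nonneg (hv0 j) (norm_nonneg _)
    have h2 : |θ ξ| / (1 + ‖ξ‖ ^ 2) * ‖FTR R W ξ‖ ≤ S := by
      rw [← hSval] at hnorm
      rw [div_mul_eq_mul_div, div_le_iff₀ ht]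
      have h3 : 2 * (|θ ξ| * ‖FTR R W ξ‖) ≤ (1 + ‖ξ‖ ^ 2) * S := by
        have h4 : R ^ 2 * (2 * (|θ ξ| * ‖FTR R W ξ‖)) ≤ R ^ 2 * ((1 + ‖ξ‖ ^ 2) * S) := by nlinarith
        exact le_of_mul_le_mul_left h4 (by positivity)
      have h5 : 0 ≤ |θ ξ| * ‖FTR R W ξ‖ := by positivity
      linarith
    have h3 : θ ξ ^ 2 / (1 + ‖ξ‖ ^ 2) ^ 2 * ‖FTR R W ξ‖ ^ 2 = (|θ ξ| / (1 + ‖ξ‖ ^ 2) * ‖FTR R W ξ‖) ^ 2 := by
      rw [mul_pow, div_pow, sq_abs]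
    rw [h3]
    have h4 : (|θ ξ| / (1 + ‖ξ‖ ^ 2) * ‖FTR R W ξ‖) ^ 2 ≤ S ^ 2 := pow_le_pow_left₀ (by positivity) h2 2
    refine h4.trans ?_
    have h5 := sq_sum_le_card_mul_sum_sq (s := (Finset.univ : Finset (AEGN_J d)))
      (f := fun j => AEGN_v d R j * ‖FTR R (AEGN_H A A0 A1 A2 j) ξ‖)
    rw [AEGN_card, Finset.mul_sum] at h5
    refine h5.trans (le_of_eq (Finset.sum_congr rfl fun j _ => ?_))
    ring
  have hint : ∫⁻ ξ : V d, ENNReal.ofReal (θ ξ ^ 2 / (1 + ‖ξ‖ ^ 2) ^ 2) * ‖FTR R W ξ‖ₑ ^ 2 ≤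
      ∫⁻ ξ : V d, ∑ j, ENNReal.ofReal ((2 + d + d ^ 2 : ℝ) * AEGN_v d R j ^ 2) * ‖FTR R (AEGN_H A A0 A1 A2 j) ξ‖ₑ ^ 2 := by
    refine lintegral_mono fun ξ => ?_
    have e1 : ∀ z : ℂ, ‖z‖ₑ ^ 2 = ENNReal.ofReal (‖z‖ ^ 2) := by
      intro z
      rw [ENNReal.ofReal_pow (norm_nonneg _), ofReal_norm]
    simp only [e1]
    rw [← ENNReal.ofReal_mul (by positivity)]
    refine (ENNReal.ofReal_le_ofReal (hpt ξ)).trans ?_
    rw [ENNReal.ofReal_sum_of_nonneg (fun j _ => by positivity)]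
    refine Finset.sum_le_sum fun j _ => ?_
    rw [ENNReal.ofReal_mul (by positivity)]
  refine hint.trans ?_
  rw [lintegral_finsetSum']
  · have e2 : ∀ j, ∫⁻ ξ : V d, ENNReal.ofReal ((2 + d + d ^ 2 : ℝ) * AEGN_v d R j ^ 2) *
        ‖FTR R (AEGN_H A A0 A1 A2 j) ξ‖ₑ ^ 2 = ENNReal.ofReal (((2 + d + d ^ 2 : ℝ) * AEGN_v d R j ^ 2) *
          ((2 * Real.pi / R) ^ d * ∫ v : V d, ‖AEGN_H A A0 A1 A2 j v‖ ^ 2)) := by
      intro j
      rw [lintegral_const_mul' _ _ ENNReal.ofReal_ne_top, (hP j).2, ← ENNReal.ofReal_mul (by positivity)]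
    simp only [e2]
    rw [← ENNReal.ofReal_sum_of_nonneg (fun j _ => by
      have : 0 ≤ ∫ v : V d, ‖AEGN_H A A0 A1 A2 j v‖ ^ 2 := integral_nonneg fun v => by positivity
      have := Real.pi_pos
      positivity)]
    apply ENNReal.ofReal_le_ofReal
    rw [AEGN_sum]
    simp only [AEGN_v, AEGN_H]
    have r4 : R ^ (-4 : ℝ) = (R⁻¹ ^ 2) ^ 2 := by
      rw [show (-4 : ℝ) = -((4 : ℕ) : ℝ) by norm_num, Real.rpow_neg hRp.le, Real.rpow_natCast]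
      field_simp
    have r2 : R ^ (-2 : ℝ) = R⁻¹ ^ 2 := by
      rw [show (-2 : ℝ) = -((2 : ℕ) : ℝ) by norm_num, Real.rpow_neg hRp.le, Real.rpow_natCast]
      field_simp
    rw [r4, r2]
    simp only [← Finset.mul_sum]
    apply le_of_eq
    ring
  · intro j _
    exact (((hP j).1.measurable.enorm.pow_const 2).const_mul _).aemeasurable

end Pool.Agent.VD
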