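import Pool.Agent.helper47.VD.SpecA1b

set_option autoImplicit false

open scoped ContDiff Topology InnerProductSpace ComplexConjugate ENNReal
open MeasureTheory Filter Set

namespace Pool.Agent.VD

open Pool.Agent.VQ (CH)

theorem AEWT_proof (h1 : AHLD_stmt) : AEWT_stmt := by
  intro d Γ _ _ K k B r hK
  obtain ⟨C1, hC1, h2⟩ := h1 d Γ K k B r 0
  refine ⟨256 * (1 + 4 * C1) ^ 2, by nlinarith, ?_⟩
  intro R G hR hG x ξ E0 hx hE0 hE
  obtain ⟨-, -, -, -, h3⟩ := h2 G hK hG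
  obtain ⟨-, -, h4⟩ := h3 x hx
  have h5 := (h4 ξ).1
  have hEp : Ep G (x, ξ) = ⟪IG G x ξ, ξ⟫_ℝ / 2 - 1 / 2 := rfl
  have hRp : 0 < R := by linarith
  set ρ := R ^ (-(1 / 4) : ℝ) with hρ
  have hρ0 : 0 < ρ := Real.rpow_pos_of_pos hRp _
  have hρ1 : ρ ≤ 1 := Real.rpow_le_one_of_one_le_of_nonpos hR (by norm_num)
  have hρ2 : R ^ (-(1 / 2) : ℝ) = ρ ^ 2 := by
    rw [hρ, ← Real.rpow_natCast, ← Real.rpow_mul hRp.le]
    norm_num
  set e := Ep G (x, ξ) - E0 with he
  have ht : 0 ≤ ‖ξ‖ ^ 2 := by positivity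
  set t := ‖ξ‖ ^ 2 with htd
  have he1 : t / (2 * C1) - 1 ≤ e := by
    have h6 : t / C1 ≤ ⟪IG G x ξ, ξ⟫_ℝ := by
      rw [div_le_iff₀ (by linarith)]
      linarith
    have h7 : t / (2 * C1) = (t / C1) / 2 := by
      field_simp
    have h8 := abs_le.1 hE0
    rw [h7, he, hEp]
    linarith
  have hmain : ρ * (1 + t) ≤ 16 * (1 + 4 * C1) * |e| := by
    rcases le_total (4 * C1) t with hc | hc
    · have h6 : t ≤ 4 * C1 * e := by
        have h7 : 4 * C1 * (t / (2 * C1) - 1) ≤ 4 * C1 * e := mul_le_mul_of_nonneg_left he1 (by linarith)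
        have h8 : 4 * C1 * (t / (2 * C1) - 1) = 2 * t - 4 * C1 := by
          field_simp
          ring
        rw [h8] at h7
        linarith
      have h9 : 0 ≤ e := by
        by_contra hneg
        push Not at hneg
        nlinarith
      have h10 : e ≤ |e| := le_abs_self e
      have h11 : ρ * (1 + t) ≤ 1 + t := by nlinarith
      nlinarith
    · have h6 : ρ ≤ 16 * |e| := by linarith
      have h7 : 1 + t ≤ 1 + 4 * C1 := by linarith
      calc ρ * (1 + t) ≤ (16 * |e|) * (1 + 4 * C1) := mul_le_mul h6 h7 (by positivity) (by positivity)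
        _ = 16 * (1 + 4 * C1) * |e| := by ring
  have hsq : (ρ * (1 + t)) ^ 2 ≤ (16 * (1 + 4 * C1) * |e|) ^ 2 := pow_le_pow_left₀ (by positivity) hmain 2
  rw [mul_pow, mul_pow, sq_abs, mul_pow] at hsq
  have hpos : 0 < (1 + t) ^ 2 := by positivity
  rw [hρ2, ← mul_div_assoc, le_div_iff₀ hpos]
  linarith

end Pool.Agent.VD
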