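import Pool.Agent.helper74.VD.SpecA4

set_option autoImplicit false

open scoped ContDiff Topology InnerProductSpace ComplexConjugate ENNReal
open MeasureTheory Filter Set

namespace Pool.Agent.VD

open Pool.Agent.VQ (CH cmZ)

theorem AULD_SG {Γ : Type} {d : ℕ} [Group Γ] [MulAction Γ (V d)] {r r' : ℝ} (h : r ≤ r') (γ : Γ)
    (hγ : γ ∈ SG Γ d r) : γ ∈ SG Γ d r' := by
  obtain ⟨x, h1, h2⟩ := hγ
  exact ⟨x, h1.trans h, h2.trans h⟩

theorem AULD_proof (hAFOD : AFOD_stmt) (hAFMD : AFMD_stmt) : AULD_stmt := by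
  intro d Γ _ _ K k B r0 χ hK hPU
  obtain ⟨C1, hC1, h1⟩ := hAFOD d Γ K k B r0 hK
  obtain ⟨C2, hC2, h2⟩ := hAFMD d Γ K k B r0 χ hK hPU
  have hC12 : 1 ≤ C1 * C2 := by nlinarith
  refine ⟨C1 * C2 + 2 * C2 + C1, by linarith, ?_⟩
  intro ch ζ ζ1 M hch hζ hζ1 hC
  have hζ1p : 0 < ζ1 := lt_of_lt_of_le hζ hζ1
  have hη : 0 < C2 * ζ1 := by positivity
  have p1 : 0 < C1 * (C2 * ζ1) := by positivity
  have p2 : 0 < C1 * ζ1 := by positivity
  have e1 : C1 * (C2 * ζ1) ≤ 1 := by nlinarith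
  have e2 : C2 * ζ1 ≤ 1 := by nlinarith
  obtain ⟨Kd, R1, hR1, h3⟩ := h1 (M + 3 * (d : ℝ) / 2 + 2) (C2 * ζ1) hη e1
  obtain ⟨R2, hR2, h4⟩ := h2 ch Kd ζ ζ1 0 hch hζ hζ1 e2
  refine ⟨max R1 R2, hR1.trans (le_max_left _ _), ?_⟩
  intro R t G Φ y y' hR hOK ht hy hy'
  obtain ⟨f1, -, f3, -, f5, f6⟩ := h4 R t G Φ ((le_max_right _ _).trans hR) hOK ht
  have hRR : R1 ≤ R := (le_max_left _ _).trans hR
  have hR0 : 1 ≤ R := hR1.trans hRR
  have hRp : 0 < R := by linarith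
  have hm : 0 ≤ R ^ (3 * (d : ℝ) / 4 + C2 * ζ1) := by positivity
  obtain ⟨g1, g2, g3⟩ := h3 R _ _ t 0 G Φ (fP G Φ χ ch ζ ζ1 R t) (fG G χ ch ζ R) y y' hRR hOK hm hm ht
    (by simp) hy hy' (f1.pk y hy) (f3.pk y' hy')
  have hconj : ∫ z, conj (psi G Φ χ ch ζ ζ1 R t y z) * Gp G χ ch ζ R y' z ∂mv G =
      conj (∫ z, pF (fP G Φ χ ch ζ ζ1 R t) y z * conj (pF (fG G χ ch ζ R) y' z) ∂mv G) := by
    rw [← integral_conj]
    refine integral_congr_ae (Filter.Eventually.of_forall fun z => ?_)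
    simp only [f5, f6, map_mul, Complex.conj_conj]
  have hmm : R ^ (3 * (d : ℝ) / 4 + C2 * ζ1) * R ^ (3 * (d : ℝ) / 4 + C2 * ζ1) = R ^ (3 * (d : ℝ) / 2 + 2 * (C2 * ζ1)) := by
    rw [← Real.rpow_add hRp]
    congr 1
    ring
  rw [hmm] at g1 g3
  refine ⟨?_, ?_, ?_⟩
  · rw [hconj, RCLike.norm_conj]
    refine g1.trans ?_
    rw [← Real.rpow_add hRp]
    apply Real.rpow_le_rpow_of_exponent_le hR0
    nlinarith
  · intro hne
    rw [hconj] at hne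
    have h5 := g2 (fun h0 => hne (by rw [h0, map_zero]))
    exact AULD_SG (by linarith) _ h5
  · intro hnd
    rw [hconj, RCLike.norm_conj]
    have h5 : ¬dist (Φ t y.2) (lft (y.1⁻¹ * y'.1) (Φ 0 y'.2)) < R ^ (-(1 / 2) + C1 * (C2 * ζ1)) := by
      intro h6
      apply hnd
      rw [hOK.flow.zero] at h6
      refine lt_of_lt_of_le h6 ?_
      apply Real.rpow_le_rpow_of_exponent_le hR0
      nlinarith
    refine (g3 h5).trans ?_
    rw [← Real.rpow_add hRp]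
    apply Real.rpow_le_rpow_of_exponent_le hR0
    nlinarith

end Pool.Agent.VD
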