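import Pool.Agent.helper47.VD.SpecA1

set_option autoImplicit false

open scoped ContDiff Topology InnerProductSpace ComplexConjugate ENNReal
open MeasureTheory Filter Set

namespace Pool.Agent.VD

open Pool.Agent.VQ (CH)

theorem AUNK_proof (h1 : AUNG_stmt) (h2 : AMVI_stmt) : AUNK_stmt := by
  intro d Γ _ _ K k B G hK hG Λ F T hDm c k0 f hc hk0 hf hinv
  obtain ⟨-, -, -, hσ, -, hmp, -, -, -⟩ := h2 d Γ K k B G hK hG
  have hσ' : SigmaFinite (mv G) := hσ
  have hcont : ∀ γ : Γ, Measurable (fun z : V d => γ • z) := fun γ => (hK.smooth γ).continuous.measurable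
  set g : Γ → V d → ENNReal := fun γ z => (∫⁻ x : V d, c x * k0 (γ⁻¹ • z - x)) * f z with hg
  have hgm : ∀ γ, Measurable (g γ) := by
    intro γ
    have h3 : Measurable (Function.uncurry fun (z x : V d) => c x * k0 (γ⁻¹ • z - x)) := by
      refine (hc.comp measurable_snd).mul (hk0.comp ?_)
      exact ((hcont γ⁻¹).comp measurable_fst).sub measurable_snd
    exact h3.lintegral_prod_right'.mul hf
  have hgi : ∀ κ ∈ Λ, ∀ (γ : Γ) (z : V d), g (κ * γ) (κ • z) = g γ z := by
    intro κ hκ γ z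
    simp only [hg]
    rw [hinv κ hκ z]
    congr 1
    refine lintegral_congr fun x => ?_
    rw [mul_inv_rev, mul_smul, inv_smul_smul]
  have h3 := h1 d Γ K k B G hK hG Λ F T hDm g hgm hgi
  have hR : ∫⁻ z in F, (∑' γ : Γ, ∫⁻ x : V d, c x * k0 (γ⁻¹ • z - x)) * f z ∂mv G =
      ∫⁻ z in F, ∑' γ : Γ, g γ z ∂mv G := by
    refine lintegral_congr fun z => ?_
    rw [ENNReal.tsum_mul_right]
  rw [hR, ← h3]
  refine tsum_congr fun γ => ?_
  have h4 : ∫⁻ z, g γ z ∂mv G = ∫⁻ w, g γ ((γ : Γ) • w) ∂mv G :=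
    ((hmp (γ : Γ)).lintegral_comp (hgm γ)).symm
  rw [h4]
  have h5 : ∀ w : V d, g γ ((γ : Γ) • w) = ∫⁻ x : V d, c x * (k0 (w - x) * f ((γ : Γ) • w)) := by
    intro w
    have h6 : Measurable fun x : V d => c x * k0 (w - x) :=
      hc.mul (hk0.comp (measurable_const.sub measurable_id))
    have h7 : (∫⁻ x : V d, c x * k0 (w - x)) * f ((γ : Γ) • w) =
        ∫⁻ x : V d, c x * k0 (w - x) * f ((γ : Γ) • w) := (lintegral_mul_const _ h6).symm
    simp only [hg, inv_smul_smul]
    rw [h7]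
    refine lintegral_congr fun x => ?_
    rw [mul_assoc]
  simp only [h5]
  rw [lintegral_lintegral_swap]
  · refine lintegral_congr fun x => ?_
    rw [lintegral_const_mul]
    exact (hk0.comp (measurable_id.sub measurable_const)).mul (hf.comp (hcont γ))
  · apply Measurable.aemeasurable
    refine (hc.comp measurable_snd).mul ((hk0.comp (measurable_fst.sub measurable_snd)).mul ?_)
    exact hf.comp ((hcont γ).comp measurable_fst)

end Pool.Agent.VD
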