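import Pool.Agent.helper11.VD.SpecR

/-!
# Project VD, row vd:CTD: the group is countable
-/

set_option autoImplicit false

open scoped ContDiff Topology InnerProductSpace ENNReal
open MeasureTheory Filter Set

namespace Pool.Agent.VD

open Pool.Agent.RPQ (PN PJ UN upd)
open Pool.Agent.VQ (rk)
open Pool.Agent.VN (aN)

noncomputable section

theorem CTD_proof : CTD_stmt := by
  intro d Γ _ _ K hK
  have h1 : ∀ n : ℕ, {γ : Γ | ∃ x ∈ Metric.closedBall (0 : V d) n, γ • x ∈ Metric.closedBall (0 : V d) n}.Finite := fun n =>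
    hK.proper _ (isCompact_closedBall _ _)
  have h2 : (⋃ n : ℕ, {γ : Γ | ∃ x ∈ Metric.closedBall (0 : V d) n, γ • x ∈ Metric.closedBall (0 : V d) n}) = (univ : Set Γ) := by
    rw [eq_univ_iff_forall]
    intro γ
    rw [mem_iUnion]
    obtain ⟨n, hn⟩ := exists_nat_ge ‖γ • (0 : V d)‖
    refine ⟨n, 0, ?_, ?_⟩
    · rw [mem_closedBall_zero_iff, norm_zero]
      exact Nat.cast_nonneg n
    · rw [mem_closedBall_zero_iff]
      exact hn
  rw [← countable_univ_iff, ← h2]
  exact countable_iUnion fun n => (h1 n).countable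

end

end Pool.Agent.VD
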