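import Pool.Agent.helper80.VD.SpecF

/-!
# Project VD, row vd:GUI: uniform bounds of the derivatives of the inverse metric
-/

set_option autoImplicit false

open scoped ContDiff Topology InnerProductSpace
open MeasureTheory Filter Set

namespace Pool.Agent.VD

noncomputable section

/-- the invertible operators -/
def GUI_T (d : ℕ) : Set (V d →L[ℝ] V d) := range (fun e : V d ≃L[ℝ] V d => (e : V d →L[ℝ] V d))

theorem GUI_open (d : ℕ) : IsOpen (GUI_T d) := ContinuousLinearEquiv.isOpen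

theorem GUI_mem {d : ℕ} (A : V d →L[ℝ] V d) (h : ∀ u, A u = 0 → u = 0) : A ∈ GUI_T d := by
  have hinj : Function.Injective (A : V d →ₗ[ℝ] V d) := by
    rw [← LinearMap.ker_eq_bot, LinearMap.ker_eq_bot']
    exact h
  refine ⟨(LinearEquiv.ofInjectiveEndo (A : V d →ₗ[ℝ] V d) hinj).toContinuousLinearEquiv, ?_⟩
  ext u
  rfl

theorem GUI_smooth (d : ℕ) : ContDiffOn ℝ ∞ (ContinuousLinearMap.inverse : (V d →L[ℝ] V d) → (V d →L[ℝ] V d)) (GUI_T d) := by
  rintro _ ⟨e, rfl⟩
  exact (contDiffAt_map_inverse e).contDiffWithinAt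

/-- the compact sets of invertible operators -/
def GUI_K (d : ℕ) (b : ℝ) : Set (V d →L[ℝ] V d) := {A | ‖A‖ ≤ b ∧ ∀ u, ‖u‖ ≤ b * ‖A u‖}

theorem GUI_compact (d : ℕ) (b : ℝ) : IsCompact (GUI_K d b) := by
  have h1 : ProperSpace (V d →L[ℝ] V d) := FiniteDimensional.proper ℝ _
  refine Metric.isCompact_of_isClosed_isBounded ?_ ?_
  · refine IsClosed.inter (isClosed_le continuous_norm continuous_const) ?_
    have h2 : {A : V d →L[ℝ] V d | ∀ u, ‖u‖ ≤ b * ‖A u‖} = ⋂ u, {A : V d →L[ℝ] V d | ‖u‖ ≤ b * ‖A u‖} := by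
      ext A
      rw [mem_iInter]
      rfl
    change IsClosed {A : V d →L[ℝ] V d | ∀ u, ‖u‖ ≤ b * ‖A u‖}
    rw [h2]
    refine isClosed_iInter fun u => isClosed_le continuous_const ?_
    exact continuous_const.mul ((ContinuousLinearMap.apply ℝ (V d) u).continuous.norm)
  · refine Bornology.IsBounded.subset (Metric.isBounded_closedBall (x := (0 : V d →L[ℝ] V d)) (r := b)) ?_
    intro A hA
    rw [mem_closedBall_zero_iff]
    exact hA.1

theorem GUI_sub (d : ℕ) (b : ℝ) : GUI_K d b ⊆ GUI_T d := by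
  intro A hA
  refine GUI_mem A fun u hu => ?_
  have h := hA.2 u
  rw [hu, norm_zero, mul_zero] at h
  exact norm_le_zero_iff.1 h

theorem GUI_proof (hGIN : GIN_stmt) : GUI_stmt := by
  intro d B m n
  have hex : ∀ i : ℕ, ∃ C : ℝ, ∀ A ∈ GUI_K d (B m 0), ‖iteratedFDerivWithin ℝ i ContinuousLinearMap.inverse (GUI_T d) A‖ ≤ C := by
    intro i
    have h1 : ContinuousOn (iteratedFDerivWithin ℝ i (ContinuousLinearMap.inverse : (V d →L[ℝ] V d) → (V d →L[ℝ] V d)) (GUI_T d)) (GUI_T d) :=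
      (GUI_smooth d).continuousOn_iteratedFDerivWithin (by exact_mod_cast le_top) (GUI_open d).uniqueDiffOn
    exact (GUI_compact d _).exists_bound_of_continuousOn (h1.mono (GUI_sub d _))
  choose c hc using hex
  obtain ⟨C, hC⟩ : ∃ C, C = ∑ i ∈ Finset.range (n + 1), |c i| := ⟨_, rfl⟩
  obtain ⟨D, hD⟩ : ∃ D, D = 1 + ∑ i ∈ Finset.range (n + 1), |B m i| := ⟨_, rfl⟩
  have hD1 : 1 ≤ D := by
    rw [hD]
    have h1 : 0 ≤ ∑ i ∈ Finset.range (n + 1), |B m i| := Finset.sum_nonneg fun i _ => abs_nonneg _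
    linarith
  refine ⟨n.factorial * C * D ^ n, fun G hG hlo hbd x hx => ?_⟩
  have hpos : ∀ x u, G x u = 0 → u = 0 := by
    intro x u hu
    by_contra hne
    have h1 := hG.pos x u hne
    rw [hu, inner_zero_left] at h1
    exact lt_irrefl _ h1
  have hGx : G x ∈ GUI_K d (B m 0) := by
    have h0 := hbd m 0 x hx
    rw [norm_iteratedFDeriv_zero] at h0
    refine ⟨h0, fun u => ?_⟩
    have hB0 : 0 ≤ B m 0 := (norm_nonneg _).trans h0
    have h1 := hlo m x u hx
    have h2 : ⟪G x u, u⟫_ℝ ≤ ‖G x u‖ * ‖u‖ := real_inner_le_norm _ _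
    have h3 : ‖u‖ ^ 2 ≤ B m 0 * (‖G x u‖ * ‖u‖) := h1.trans (mul_le_mul_of_nonneg_left h2 hB0)
    rcases (norm_nonneg u).eq_or_lt with h4 | h4
    · rw [← h4]
      exact mul_nonneg hB0 (norm_nonneg _)
    · rw [sq, ← mul_assoc] at h3
      exact le_of_mul_le_mul_right h3 h4
  have h5 := norm_iteratedFDerivWithin_comp_le (n := n) (N := ∞) (GUI_smooth d) (hG.smooth.contDiffOn (s := univ)) (by exact_mod_cast le_top)
    (GUI_open d).uniqueDiffOn uniqueDiffOn_univ (fun y _ => GUI_mem (G y) (hpos y)) (mem_univ x) (C := C) (D := D) (fun i hi => ?_) (fun i hi1 hi => ?_)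
  · rw [iteratedFDerivWithin_univ] at h5
    exact h5
  · refine (hc i _ hGx).trans ((le_abs_self _).trans ?_)
    rw [hC]
    exact Finset.single_le_sum (f := fun i => |c i|) (fun i _ => abs_nonneg _) (Finset.mem_range.2 (Nat.lt_succ_of_le hi))
  · rw [iteratedFDerivWithin_univ]
    calc ‖iteratedFDeriv ℝ i G x‖ ≤ B m i := hbd m i x hx
      _ ≤ |B m i| := le_abs_self _
      _ ≤ ∑ i ∈ Finset.range (n + 1), |B m i| :=
          Finset.single_le_sum (f := fun i => |B m i|) (fun i _ => abs_nonneg _) (Finset.mem_range.2 (Nat.lt_succ_of_le hi))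
      _ ≤ D := by rw [hD]; linarith
      _ ≤ D ^ i := le_self_pow₀ hD1 (by omega)

end

end Pool.Agent.VD
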