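import Pool.Agent.helper11.VD.SpecC
import Pool.Agent.helper16.VD.GCH
import Pool.Agent.helper38.VD.GIN

set_option autoImplicit false

open scoped ContDiff Topology InnerProductSpace
open MeasureTheory Filter Set

namespace Pool.Agent.VD

theorem NGD_cont {d : ℕ} {G : V d → V d →L[ℝ] V d} (hG : IsMetric G) :
    Continuous fun p : V d × V d × V d => ⟪G p.1 (Riem G p.1 p.2.1 p.2.2 p.2.2), p.2.1⟫_ℝ := by
  obtain ⟨-, -, hsm, -, -, -, -, -⟩ := GCH_proof GIN_proof d G hG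
  have h1 : ContDiff ℝ ∞ (fun p : V d × V d × V d => p.1) := contDiff_fst
  have h2 : ContDiff ℝ ∞ (fun p : V d × V d × V d => p.2.1) := contDiff_fst.comp contDiff_snd
  have h3 : ContDiff ℝ ∞ (fun p : V d × V d × V d => p.2.2) := contDiff_snd.comp contDiff_snd
  have hD : ∀ a b c : V d × V d × V d → V d, ContDiff ℝ ∞ a → ContDiff ℝ ∞ b → ContDiff ℝ ∞ c →
      ContDiff ℝ ∞ (fun p => fderiv ℝ (fun y => Chr G y (b p) (c p)) p.1 (a p)) := by
    intro a b c ha hb hc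
    have h4 : ContDiff ℝ ∞ (Function.uncurry fun (p : V d × V d × V d) (y : V d) => Chr G y (b p) (c p)) := by
      have h5 : ContDiff ℝ ∞ (fun q : (V d × V d × V d) × V d => (q.2, b q.1, c q.1)) :=
        contDiff_snd.prodMk ((hb.comp contDiff_fst).prodMk (hc.comp contDiff_fst))
      exact hsm.comp h5
    exact ContDiff.fderiv_apply h4 h1 ha (by simp)
  have k1 := h1.continuous
  have k2 := h2.continuous
  have k3 := h3.continuous
  have hR : Continuous fun p : V d × V d × V d => Riem G p.1 p.2.1 p.2.2 p.2.2 := by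
    have c1 := (hD (fun p => p.2.1) (fun p => p.2.2) (fun p => p.2.2) h2 h3 h3).continuous
    have c2 := (hD (fun p => p.2.2) (fun p => p.2.1) (fun p => p.2.2) h3 h2 h3).continuous
    have cc : ∀ a b c : V d × V d × V d → V d, Continuous a → Continuous b → Continuous c →
        Continuous (fun p => Chr G (a p) (b p) (c p)) := by
      intro a b c ha hb hc
      exact hsm.continuous.comp (ha.prodMk (hb.prodMk hc))
    have c3 := cc _ _ _ k1 k2 (cc _ _ _ k1 k3 k3)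
    have c4 := cc _ _ _ k1 k3 (cc _ _ _ k1 k2 k3)
    exact ((c1.sub c2).add c3).sub c4
  exact ((hG.smooth.continuous.comp k1).clm_apply hR).inner k2

theorem NGD_scale (hRSY : RSY_stmt) {d : ℕ} {G : V d → V d →L[ℝ] V d} (hG : IsMetric G) (x e1 e2 : V d)
    (α β γ : ℝ) : ⟪G x (Riem G x (α • e1) (β • e1 + γ • e2) (β • e1 + γ • e2)), α • e1⟫_ℝ =
      (α * γ) ^ 2 * ⟪G x (Riem G x e1 e2 e2), e1⟫_ℝ := by
  obtain ⟨-, hanti, hskew, hlin⟩ := hRSY d G hG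
  have r0 : ∀ u w, Riem G x u u w = 0 := by
    intro u w
    have h1 := hanti x u u w
    have h2 : (2 : ℝ) • Riem G x u u w = 0 := by
      rw [two_smul]
      nth_rewrite 1 [h1]
      exact neg_add_cancel _
    exact (smul_eq_zero.1 h2).resolve_left two_ne_zero
  have r1 : ∀ w, Riem G x (α • e1) (β • e1 + γ • e2) w = (α * γ) • Riem G x e1 e2 w := by
    intro w
    have h1 := hlin x α 0 e1 0 (β • e1 + γ • e2) w
    rw [zero_smul, add_zero, zero_smul, add_zero] at h1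
    rw [h1, hanti x e1 (β • e1 + γ • e2) w, hlin x β γ e1 e2 e1 w, r0, hanti x e2 e1 w]
    module
  have s1 := hskew x e1 e2 e1 e1
  have s2 := hskew x e1 e2 e1 e2
  have s3 : ⟪G x (Riem G x e1 e2 e1), e1⟫_ℝ = 0 := by linarith
  rw [r1, map_smul, real_inner_smul_left, real_inner_smul_right, hskew x e1 e2 (β • e1 + γ • e2) e1,
    inner_add_right, real_inner_smul_right, real_inner_smul_right, s3, s2]
  ring

theorem NGD_gram {d : ℕ} {G : V d → V d →L[ℝ] V d} (hG : IsMetric G) (x u v : V d)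
    (h : LinearIndependent ℝ ![u, v]) : 0 < ⟪G x u, u⟫_ℝ * ⟪G x v, v⟫_ℝ - ⟪G x u, v⟫_ℝ ^ 2 := by
  have hu : u ≠ 0 := h.ne_zero 0
  have ha : 0 < ⟪G x u, u⟫_ℝ := hG.pos x u hu
  have hw : ⟪G x u, u⟫_ℝ • v - ⟪G x u, v⟫_ℝ • u ≠ 0 := by
    intro h0
    rw [LinearIndependent.pair_iff] at h
    have h1 := h (-⟪G x u, v⟫_ℝ) ⟪G x u, u⟫_ℝ (by rw [neg_smul, neg_add_eq_sub]; exact h0)
    exact ha.ne' h1.2
  have h1 := hG.pos x _ hw
  have h2 : ⟪G x v, u⟫_ℝ = ⟪G x u, v⟫_ℝ := by rw [hG.symm, real_inner_comm]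
  rw [map_sub, map_smul, map_smul, inner_sub_left, inner_sub_right, inner_sub_right, real_inner_smul_left,
    real_inner_smul_left, real_inner_smul_left, real_inner_smul_left, real_inner_smul_right, real_inner_smul_right,
    real_inner_smul_right, real_inner_smul_right, h2] at h1
  have h3 : 0 < ⟪G x u, u⟫_ℝ * (⟪G x u, u⟫_ℝ * ⟪G x v, v⟫_ℝ - ⟪G x u, v⟫_ℝ ^ 2) := by
    nlinarith [h1]
  exact (mul_pos_iff_of_pos_left ha).1 h3

theorem NGD_lb {d : ℕ} {G : V d → V d →L[ℝ] V d} (hG : IsMetric G) {K : Set (V d)} (hK : IsCompact K) :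
    ∃ c : ℝ, 0 < c ∧ ∀ x ∈ K, ∀ u : V d, c * ‖u‖ ^ 2 ≤ ⟪G x u, u⟫_ℝ := by
  have hcont : Continuous fun p : V d × V d => ⟪G p.1 p.2, p.2⟫_ℝ :=
    ((hG.smooth.continuous.comp continuous_fst).clm_apply continuous_snd).inner continuous_snd
  have hcomp : IsCompact (K ×ˢ Metric.sphere (0 : V d) 1) := hK.prod (isCompact_sphere _ _)
  have hred : ∀ c : ℝ, (∀ x ∈ K, ∀ u : V d, ‖u‖ = 1 → c ≤ ⟪G x u, u⟫_ℝ) →
      ∀ x ∈ K, ∀ u : V d, c * ‖u‖ ^ 2 ≤ ⟪G x u, u⟫_ℝ := by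
    intro c h x hx u
    by_cases hu : u = 0
    · simp [hu]
    have hn : 0 < ‖u‖ := norm_pos_iff.2 hu
    have h1 := h x hx (‖u‖⁻¹ • u) (by rw [norm_smul, norm_inv, norm_norm, inv_mul_cancel₀ hn.ne'])
    rw [map_smul, real_inner_smul_left, real_inner_smul_right] at h1
    have h2 : c * ‖u‖ ^ 2 ≤ (‖u‖⁻¹ * (‖u‖⁻¹ * ⟪G x u, u⟫_ℝ)) * ‖u‖ ^ 2 :=
      mul_le_mul_of_nonneg_right h1 (by positivity)
    have h3 : (‖u‖⁻¹ * (‖u‖⁻¹ * ⟪G x u, u⟫_ℝ)) * ‖u‖ ^ 2 = ⟪G x u, u⟫_ℝ := by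
      field_simp
    rwa [h3] at h2
  rcases (K ×ˢ Metric.sphere (0 : V d) 1).eq_empty_or_nonempty with he | hne
  · refine ⟨1, one_pos, hred 1 ?_⟩
    intro x hx u hu
    have : (x, u) ∈ K ×ˢ Metric.sphere (0 : V d) 1 := ⟨hx, by simpa using hu⟩
    rw [he] at this
    exact absurd this (Set.notMem_empty _)
  · obtain ⟨⟨x0, u0⟩, ⟨hx0, hu0⟩, hmin⟩ := hcomp.exists_isMinOn hne hcont.continuousOn
    have hu0' : ‖u0‖ = 1 := by simpa using hu0
    refine ⟨⟪G x0 u0, u0⟫_ℝ, hG.pos x0 u0 ?_, hred _ ?_⟩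
    · intro h0
      rw [h0, norm_zero] at hu0'
      exact zero_ne_one hu0'
    · intro x hx u hu
      exact hmin (show (x, u) ∈ K ×ˢ Metric.sphere (0 : V d) 1 from ⟨hx, by simpa using hu⟩)

theorem NGD_invb {d : ℕ} {G : V d → V d →L[ℝ] V d} (hG : IsMetric G) (x : V d) (c : ℝ) (hc : 0 < c)
    (h : ∀ u : V d, c * ‖u‖ ^ 2 ≤ ⟪G x u, u⟫_ℝ) : ‖(G x).inverse‖ ≤ c⁻¹ := by
  obtain ⟨hinv, -⟩ := GIN_proof d G hG
  refine ContinuousLinearMap.opNorm_le_bound _ (inv_nonneg.2 hc.le) fun y => ?_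
  have h1 : G x ((G x).inverse y) = y := (hinv x y).2
  have h2 := h ((G x).inverse y)
  rw [h1] at h2
  have h3 := real_inner_le_norm y ((G x).inverse y)
  rcases (norm_nonneg ((G x).inverse y)).eq_or_lt with h0 | h0
  · rw [← h0]
    positivity
  · have h4 : c * ‖(G x).inverse y‖ ≤ ‖y‖ := by
      have h5 : (c * ‖(G x).inverse y‖) * ‖(G x).inverse y‖ ≤ ‖y‖ * ‖(G x).inverse y‖ := by nlinarith
      exact le_of_mul_le_mul_right h5 h0
    rw [inv_mul_eq_div, le_div_iff₀ hc]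
    linarith

theorem NGD_bdd {d : ℕ} {G : V d → V d →L[ℝ] V d} (hG : IsMetric G) {K : Set (V d)} (hK : IsCompact K) :
    ∃ M : ℝ, 1 ≤ M ∧ ∀ x ∈ K, ∀ n ≤ 2, ‖iteratedFDeriv ℝ n G x‖ ≤ M := by
  have h : ∀ n : ℕ, ∃ M : ℝ, ∀ x ∈ K, ‖iteratedFDeriv ℝ n G x‖ ≤ M := fun n =>
    hK.exists_bound_of_continuousOn
      (hG.smooth.continuous_iteratedFDeriv (m := n) (by exact_mod_cast le_top)).continuousOn
  choose M hM using h
  refine ⟨max 1 (max (M 0) (max (M 1) (M 2))), le_max_left _ _, ?_⟩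
  intro x hx n hn
  interval_cases n
  · exact (hM 0 x hx).trans ((le_max_left _ _).trans (le_max_right _ _))
  · exact (hM 1 x hx).trans (((le_max_left _ _).trans (le_max_right _ _)).trans (le_max_right _ _))
  · exact (hM 2 x hx).trans (((le_max_right _ _).trans (le_max_right _ _)).trans (le_max_right _ _))

theorem NGD_neg {d : ℕ} {G : V d → V d →L[ℝ] V d} (hG : IsMetric G) (hN : NegativelyCurved G)
    {K : Set (V d)} (hK : IsCompact K) : ∃ c0 : ℝ, 0 < c0 ∧ ∀ x ∈ K, ∀ u v : V d, ‖u‖ = 1 → ‖v‖ = 1 →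
      ⟪u, v⟫_ℝ = 0 → ⟪G x (Riem G x u v v), u⟫_ℝ ≤ -c0 := by
  set S : Set (V d × V d × V d) := (K ×ˢ (Metric.sphere (0 : V d) 1 ×ˢ Metric.sphere (0 : V d) 1)) ∩
    {p | ⟪p.2.1, p.2.2⟫_ℝ = 0} with hS
  have hScl : IsClosed {p : V d × V d × V d | ⟪p.2.1, p.2.2⟫_ℝ = 0} :=
    isClosed_eq ((continuous_fst.comp continuous_snd).inner (continuous_snd.comp continuous_snd))
      continuous_const
  have hScomp : IsCompact S :=
    (hK.prod ((isCompact_sphere _ _).prod (isCompact_sphere _ _))).inter_right hScl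
  have hmem : ∀ x ∈ K, ∀ u v : V d, ‖u‖ = 1 → ‖v‖ = 1 → ⟪u, v⟫_ℝ = 0 → (x, u, v) ∈ S := by
    intro x hx u v hu hv huv
    exact ⟨⟨hx, by simpa using hu, by simpa using hv⟩, huv⟩
  rcases S.eq_empty_or_nonempty with he | hne
  · refine ⟨1, one_pos, ?_⟩
    intro x hx u v hu hv huv
    have h1 := hmem x hx u v hu hv huv
    rw [he] at h1
    exact absurd h1 (Set.notMem_empty _)
  · obtain ⟨⟨x0, u0, v0⟩, hp0, hmax⟩ := hScomp.exists_isMaxOn hne (NGD_cont hG).continuousOn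
    obtain ⟨⟨hx0, hu0, hv0⟩, huv0⟩ := hp0
    have hu0' : ‖u0‖ = 1 := by simpa using hu0
    have hv0' : ‖v0‖ = 1 := by simpa using hv0
    have huv0' : ⟪u0, v0⟫_ℝ = 0 := huv0
    have hli : LinearIndependent ℝ ![u0, v0] := by
      rw [LinearIndependent.pair_iff]
      intro a b hab
      have e1 : ⟪a • u0 + b • v0, u0⟫_ℝ = 0 := by rw [hab, inner_zero_left]
      have e2 : ⟪a • u0 + b • v0, v0⟫_ℝ = 0 := by rw [hab, inner_zero_left]
      rw [inner_add_left, real_inner_smul_left, real_inner_smul_left, real_inner_self_eq_norm_sq, hu0',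
        real_inner_comm, huv0'] at e1
      rw [inner_add_left, real_inner_smul_left, real_inner_smul_left, real_inner_self_eq_norm_sq, hv0',
        huv0'] at e2
      constructor
      · linarith
      · linarith
    have h1 := hN x0 u0 v0 hli
    have h2 := NGD_gram hG x0 u0 v0 hli
    have h3 : ⟪G x0 (Riem G x0 u0 v0 v0), u0⟫_ℝ < 0 := by
      rcases div_neg_iff.1 h1 with h | h
      · exact absurd h.2 (not_lt.2 h2.le)
      · exact h.1
    refine ⟨-⟪G x0 (Riem G x0 u0 v0 v0), u0⟫_ℝ, by linarith, ?_⟩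
    intro x hx u v hu hv huv
    have h4 := hmax (hmem x hx u v hu hv huv)
    rw [neg_neg]
    exact h4

theorem NGD_li (hRSY : RSY_stmt) {d : ℕ} {G : V d → V d →L[ℝ] V d} (hG : IsMetric G) (x : V d)
    (h : ∀ u v : V d, ‖u‖ = 1 → ‖v‖ = 1 → ⟪u, v⟫_ℝ = 0 → ⟪G x (Riem G x u v v), u⟫_ℝ < 0) (u v : V d)
    (huv : LinearIndependent ℝ ![u, v]) : ⟪G x (Riem G x u v v), u⟫_ℝ < 0 := by
  have hu : u ≠ 0 := huv.ne_zero 0
  have hnu : 0 < ‖u‖ := norm_pos_iff.2 hu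
  have hw : v - (‖u‖⁻¹ * (‖u‖⁻¹ * ⟪u, v⟫_ℝ)) • u ≠ 0 := by
    intro h0
    rw [LinearIndependent.pair_iff] at huv
    have h1 := huv (-(‖u‖⁻¹ * (‖u‖⁻¹ * ⟪u, v⟫_ℝ))) 1 (by rw [neg_smul, one_smul, neg_add_eq_sub]; exact h0)
    exact one_ne_zero h1.2
  have hnw : 0 < ‖v - (‖u‖⁻¹ * (‖u‖⁻¹ * ⟪u, v⟫_ℝ)) • u‖ := norm_pos_iff.2 hw
  set w := v - (‖u‖⁻¹ * (‖u‖⁻¹ * ⟪u, v⟫_ℝ)) • u with hwd
  have e1 : u = ‖u‖ • (‖u‖⁻¹ • u) := by rw [smul_smul, mul_inv_cancel₀ hnu.ne', one_smul]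
  have e2 : v = (‖u‖⁻¹ * ⟪u, v⟫_ℝ) • (‖u‖⁻¹ • u) + ‖w‖ • (‖w‖⁻¹ • w) := by
    rw [smul_smul, smul_smul, mul_inv_cancel₀ hnw.ne', one_smul, hwd, mul_comm (‖u‖⁻¹ * ⟪u, v⟫_ℝ)]
    abel
  have e3 : ⟪u, w⟫_ℝ = 0 := by
    rw [hwd, inner_sub_right, real_inner_smul_right, real_inner_self_eq_norm_sq]
    field_simp
    ring
  have h1 := h (‖u‖⁻¹ • u) (‖w‖⁻¹ • w) (by rw [norm_smul, norm_inv, norm_norm, inv_mul_cancel₀ hnu.ne'])
    (by rw [norm_smul, norm_inv, norm_norm, inv_mul_cancel₀ hnw.ne'])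
    (by rw [real_inner_smul_left, real_inner_smul_right, e3, mul_zero, mul_zero])
  have h2 := NGD_scale hRSY hG x (‖u‖⁻¹ • u) (‖w‖⁻¹ • w) ‖u‖ (‖u‖⁻¹ * ⟪u, v⟫_ℝ) ‖w‖
  rw [← e1, ← e2] at h2
  rw [h2]
  exact mul_neg_of_pos_of_neg (by positivity) h1

theorem NGD_cfm0 {d : ℕ} (G : V d → V d →L[ℝ] V d) : cfm (fun _ => 0) G = G := by
  funext x
  simp [cfm]

theorem NGD_proof (hRSY : RSY_stmt) (hRCN : RCN_stmt) (hCFC : CFC_stmt) (hNAT : NAT_stmt) : NGD_stmt := by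
  intro d Γ _ _ K G0 hK hD hG0 hneg
  obtain ⟨hC1, hC2⟩ := hCFC d
  obtain ⟨M0, hM0, hM0b⟩ := NGD_bdd hG0 hK.compact
  obtain ⟨c, hc, hcl⟩ := NGD_lb hG0 hK.compact
  obtain ⟨c0, hc0, hc0l⟩ := NGD_neg hG0 hneg hK.compact
  have hC3 : ∃ A : ℝ, 1 ≤ A ∧ ∀ (f : V d → ℝ) (x : V d) (s : ℝ), x ∈ K → ContDiff ℝ ∞ f → 0 ≤ s → s ≤ 1 →
      (∀ n ≤ 2, ‖iteratedFDeriv ℝ n f x‖ ≤ s) → ∀ n ≤ 2, ‖iteratedFDeriv ℝ n (cfm f G0) x‖ ≤ A ∧
        ‖iteratedFDeriv ℝ n (fun y => cfm f G0 y - G0 y) x‖ ≤ A * s := by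
    have h1 : ∀ n : ℕ, n ≤ 2 → ∃ A : ℝ, 1 ≤ A ∧ ∀ (f : V d → ℝ) (x : V d) (s : ℝ), x ∈ K → ContDiff ℝ ∞ f →
        0 ≤ s → s ≤ 1 → (∀ n ≤ 2, ‖iteratedFDeriv ℝ n f x‖ ≤ s) → ‖iteratedFDeriv ℝ n (cfm f G0) x‖ ≤ A ∧
          ‖iteratedFDeriv ℝ n (fun y => cfm f G0 y - G0 y) x‖ ≤ A * s := by
      intro n hn
      obtain ⟨A, hA, hA'⟩ := hC2 n M0 hM0
      refine ⟨A, hA, ?_⟩
      intro f x s hx hf hs0 hs1 hfs
      obtain ⟨h2, h3⟩ := hA' f (fun _ => 0) G0 x s hf contDiff_const hG0 hs0 hs1 (by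
        intro i hi
        refine ⟨(hfs i (hi.trans hn)).trans (hs1.trans hM0), ?_, hM0b x hx i (hi.trans hn)⟩
        have h4 : iteratedFDeriv ℝ i (fun _ : V d => (0 : ℝ)) x = 0 := by simp
        rw [h4, norm_zero]
        linarith)
      refine ⟨h2, ?_⟩
      have h5 := h3 (by
        intro i hi
        simp only [sub_zero]
        exact hfs i (hi.trans hn))
      rw [NGD_cfm0] at h5
      exact h5
    obtain ⟨A0, hA0, hA0'⟩ := h1 0 (by norm_num)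
    obtain ⟨A1, hA1, hA1'⟩ := h1 1 (by norm_num)
    obtain ⟨A2, hA2, hA2'⟩ := h1 2 (by norm_num)
    refine ⟨max A0 (max A1 A2), hA0.trans (le_max_left _ _), ?_⟩
    intro f x s hx hf hs0 hs1 hfs n hn
    have hmono : ∀ A : ℝ, A ≤ max A0 (max A1 A2) → ‖iteratedFDeriv ℝ n (cfm f G0) x‖ ≤ A ∧
        ‖iteratedFDeriv ℝ n (fun y => cfm f G0 y - G0 y) x‖ ≤ A * s →
        ‖iteratedFDeriv ℝ n (cfm f G0) x‖ ≤ max A0 (max A1 A2) ∧
        ‖iteratedFDeriv ℝ n (fun y => cfm f G0 y - G0 y) x‖ ≤ max A0 (max A1 A2) * s := by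
      intro A hA hh
      exact ⟨hh.1.trans hA, hh.2.trans (mul_le_mul_of_nonneg_right hA hs0)⟩
    interval_cases n
    · exact hmono A0 (le_max_left _ _) (hA0' f x s hx hf hs0 hs1 hfs)
    · exact hmono A1 ((le_max_left _ _).trans (le_max_right _ _)) (hA1' f x s hx hf hs0 hs1 hfs)
    · exact hmono A2 ((le_max_right _ _).trans (le_max_right _ _)) (hA2' f x s hx hf hs0 hs1 hfs)
  obtain ⟨A, hA, hA'⟩ := hC3
  obtain ⟨C, hC, hCm⟩ := hRCN d (max M0 (max A (3 * c⁻¹))) (hM0.trans (le_max_left _ _))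
  have hApos : 0 < A := by linarith
  have hCpos : 0 < C := by linarith
  refine ⟨min 1 (c0 / (2 * C * A)), lt_min one_pos (by positivity), ?_⟩
  intro f hf hfi hfd
  set s := min 1 (c0 / (2 * C * A)) with hs
  have hs0 : 0 < s := lt_min one_pos (by positivity)
  have hs1 : s ≤ 1 := min_le_left _ _
  have hs2 : C * (A * s) ≤ c0 / 2 := by
    have h1 : s ≤ c0 / (2 * C * A) := min_le_right _ _
    have h2 : (C * A) * s ≤ (C * A) * (c0 / (2 * C * A)) := mul_le_mul_of_nonneg_left h1 (by positivity)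
    have h3 : (C * A) * (c0 / (2 * C * A)) = c0 / 2 := by field_simp
    rw [h3] at h2
    linarith
  have hG' : IsMetric (cfm f G0) := hC1 f G0 hf hG0
  have keyK : ∀ x ∈ K, ∀ u v : V d, LinearIndependent ℝ ![u, v] →
      ⟪cfm f G0 x (Riem (cfm f G0) x u v v), u⟫_ℝ < 0 := by
    intro x hx
    apply NGD_li hRSY hG' x
    intro u v hu hv huv
    have hfx : ∀ n ≤ 2, ‖iteratedFDeriv ℝ n f x‖ ≤ s := fun n hn => hfd n hn x hx
    have hder := hA' f x s hx hf hs0.le hs1 hfx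
    have hfx0 : |f x| ≤ 1 := by
      have h1 := hfx 0 (by norm_num)
      rw [norm_iteratedFDeriv_zero, Real.norm_eq_abs] at h1
      linarith
    have hinv0 : ‖(G0 x).inverse‖ ≤ max M0 (max A (3 * c⁻¹)) := by
      have h1 := NGD_invb hG0 x c hc (hcl x hx)
      have h2 : c⁻¹ ≤ 3 * c⁻¹ := by
        have : 0 < c⁻¹ := inv_pos.2 hc
        linarith
      exact h1.trans (h2.trans ((le_max_right _ _).trans (le_max_right _ _)))
    have hinv1 : ‖(cfm f G0 x).inverse‖ ≤ max M0 (max A (3 * c⁻¹)) := by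
      have h1 := NGD_invb hG' x (c / 3) (by positivity) (by
        intro u
        have h2 := hcl x hx u
        have h3 : ⟪cfm f G0 x u, u⟫_ℝ = Real.exp (f x) * ⟪G0 x u, u⟫_ℝ := by
          rw [cfm, ContinuousLinearMap.smul_apply, real_inner_smul_left]
        rw [h3]
        have h4 : (1 : ℝ) / 3 ≤ Real.exp (f x) := by
          have h5 : Real.exp (-1) ≤ Real.exp (f x) := Real.exp_le_exp.2 (by have := abs_le.1 hfx0; linarith)
          have h6 : Real.exp (-1) = (Real.exp 1)⁻¹ := Real.exp_neg 1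
          have h7 : Real.exp 1 ≤ 3 := by
            have := Real.exp_one_lt_d9
            linarith
          have h8 : (3 : ℝ)⁻¹ ≤ (Real.exp 1)⁻¹ := inv_anti₀ (Real.exp_pos 1) h7
          rw [h6] at h5
          rw [one_div]
          linarith
        have h9 : 0 ≤ ⟪G0 x u, u⟫_ℝ := le_trans (by positivity) h2
        nlinarith)
      have h2 : (c / 3)⁻¹ = 3 * c⁻¹ := by field_simp
      rw [h2] at h1
      exact h1.trans ((le_max_right _ _).trans (le_max_right _ _))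
    have hAs0 : 0 ≤ A * s := by positivity
    obtain ⟨h1, -⟩ := hCm (cfm f G0) G0 x (A * s) hG' hG0 hAs0 (by
      intro n hn
      exact ⟨(hder n hn).1.trans ((le_max_left _ _).trans (le_max_right _ _)),
        (hM0b x hx n hn).trans (le_max_left _ _)⟩) hinv1 hinv0 (fun n hn => (hder n hn).2) u v
    rw [hu, hv] at h1
    have h2 := hc0l x hx u v hu hv huv
    have h3 := (abs_le.1 h1).2
    have h4 : C * (A * s) * 1 ^ 2 * 1 ^ 2 = C * (A * s) := by ring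
    rw [h4] at h3
    linarith
  have hDeck : Deck Γ (cfm f G0) := by
    refine ⟨hD.smooth, ?_, hD.free, hD.proper, hD.cocompact⟩
    intro γ x u v
    rw [cfm, cfm, ContinuousLinearMap.smul_apply, ContinuousLinearMap.smul_apply, real_inner_smul_left,
      real_inner_smul_left, hD.isom, hfi γ x]
  intro x u v huv
  have hgram := NGD_gram hG' x u v huv
  refine div_neg_of_neg_of_pos ?_ hgram
  obtain ⟨γ, hγ⟩ := hK.cover x
  have hT := hNAT d Γ (cfm f G0) hG' hDeck γ x u v v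
  have hiso := hDeck.isom γ x
  rw [← hiso, ← hT]
  apply keyK (γ • x) hγ
  rw [LinearIndependent.pair_iff] at huv ⊢
  intro a b hab
  apply huv a b
  by_contra hne
  have h1 := hG'.pos x _ hne
  rw [← hiso, map_add, map_smul, map_smul, hab, inner_zero_right] at h1
  exact lt_irrefl _ h1

end Pool.Agent.VD
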